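import Pool.Agent.X99.SY.M

/-!
# A factorial gap for the number of orbits of the proper reducts of an ordered homogeneous structure

Let `𝔹` be an infinite homogeneous structure in a finite relational signature whose automorphisms preserve a linear order, and
`G = Aut(𝔹)`. There are constants which depend on `𝔹` only such that every permutation group `K` which contains `G` properly has
at least `c k! - C k^r` fewer orbits on injective `k`-tuples than `G`. For `(ℚ; <)`, where `G` has `k!` orbits on injective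
`k`-tuples, this is the right order of magnitude.

Definitions. From `Pool.Agent.W994.AR`: `Str σ ar B`: a structure on `B`, one relation `Set (Fin (ar i) → B)` for each symbol
`i : σ`; `autGroup 𝔹`: its automorphism group; `Homogeneous`: as in the problem. From `Pool.Agent.X99.SY.F`: `InjOrb G k`: the
type of the orbits of `G` on injective `k`-tuples.
-/

set_option autoImplicit false

namespace Pool.Agent.Results.MP_f225a9_lc.FactorialOrbitGap

open Pool.Agent.W994.AR Pool.Agent.X99.SY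

theorem log_bound {x y : ℕ} {e : ℝ} (h : (2 : ℝ) ^ x ≤ Real.exp (-e) * 2 ^ y) :
    (x : ℝ) + (Real.log 2)⁻¹ * e ≤ y := by
  have hl : 0 < Real.log 2 := Real.log_pos (by norm_num)
  have h1 := Real.log_le_log (by positivity) h
  rw [Real.log_mul (by positivity) (by positivity), Real.log_exp, Real.log_pow, Real.log_pow] at h1
  have h2 : (Real.log 2)⁻¹ * (x * Real.log 2) ≤ (Real.log 2)⁻¹ * (-e + y * Real.log 2) :=
    mul_le_mul_of_nonneg_left h1 (inv_nonneg.2 hl.le)
  have h3 : (Real.log 2)⁻¹ * (x * Real.log 2) = x := by field_simp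
  have h4 : (Real.log 2)⁻¹ * (-e + y * Real.log 2) = - ((Real.log 2)⁻¹ * e) + y := by field_simp
  rw [h3, h4] at h2
  linarith

theorem result {B σ : Type} [Infinite B] [LinearOrder B] [Finite σ] {arB : σ → ℕ} (𝔹 : Str σ arB B)
    (h𝔹 : Homogeneous 𝔹) (hord : ∀ g ∈ autGroup 𝔹, StrictMono g) :
    (∀ k : ℕ, Finite (InjOrb (autGroup 𝔹) k) ∧ k.factorial ≤ Nat.card (InjOrb (autGroup 𝔹) k)) ∧
    ∃ (k₀ r : ℕ) (C c : ℝ), 0 < c ∧ ∀ K : Subgroup (Equiv.Perm B), autGroup 𝔹 < K → ∀ k : ℕ, k₀ ≤ k →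
      (Nat.card (InjOrb K k) : ℝ) + c * k.factorial ≤ Nat.card (InjOrb (autGroup 𝔹) k) + C * (k : ℝ) ^ r := by
  classical
  have := Fintype.ofFinite σ
  have hfin : ∀ k, Finite (Orb (autGroup 𝔹) (Fin k)) := fun k => hom_finite h𝔹 (Fin k)
  have hfinK : ∀ (K : Subgroup (Equiv.Perm B)), autGroup 𝔹 < K → ∀ k, Finite (Orb K (Fin k)) := by
    intro K hK k
    have := hfin k
    let f : Orb (autGroup 𝔹) (Fin k) → Orb K (Fin k) := Quotient.map' (s₁ := orb (autGroup 𝔹) (Fin k))
      (s₂ := orb K (Fin k)) (fun v => v) (fun u v h => by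
        obtain ⟨g, hg, h⟩ := h
        exact ⟨g, hK.le hg, h⟩)
    apply Finite.of_surjective f
    intro o
    obtain ⟨v, rfl⟩ := Quotient.exists_rep o
    exact ⟨Quotient.mk (orb (autGroup 𝔹) (Fin k)) v, rfl⟩
  refine ⟨fun k => ?_, ?_⟩
  · have h1 := hfin k
    exact ⟨inferInstance, factorial_le hord k⟩
  set p := max 2 (Finset.univ.sup arB) with hp
  have hp2 : 2 ≤ p := le_max_left _ _
  have har : ∀ i, arB i ≤ p := fun i =>
    (Finset.le_sup (f := arB) (Finset.mem_univ i)).trans (le_max_right _ _)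
  have hloc := hom_local h𝔹 p hp2 har
  obtain ⟨K₁, r, hK₁⟩ := orb_card_le h𝔹
  set a : ℕ := (Finset.range (p + 1)).sup (fun q => Nat.card (Orb (autGroup 𝔹) (Fin q))) with ha
  have hl : 0 < Real.log 2 := Real.log_pos (by norm_num)
  refine ⟨max p (a + 1), r, (Real.log 2)⁻¹ * (K₁ * (a + 1)), (Real.log 2)⁻¹ * ((2⁻¹ : ℝ) ^ (a + 1) / (a + 1) ^ 2),
    by positivity, fun K hK k hk => ?_⟩
  have hkp : p ≤ k := le_trans (le_max_left _ _) hk
  have hka : a < k.factorial := lt_of_lt_of_le (le_trans (le_max_right _ _) hk) (Nat.self_le_factorial k)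
  have hfk := hfin k
  have hfKk := hfinK K hK k
  have hfinO : Finite (InjOrb (autGroup 𝔹) k) := inferInstance
  have hfinOK : Finite (InjOrb K k) := inferInstance
  have hfinR : Finite (InjRel (autGroup 𝔹) k) := Finite.of_equiv _ (injEquiv (autGroup 𝔹) k).symm
  have hnot : ∀ R : InjRel K k, ¬ Sep (autGroup 𝔹) a R.1.1 := by
    intro R hR
    have hRG : Invar (autGroup 𝔹) R.1.1 := fun g hg v hv => R.1.2 g (hK.le hg) v hv
    let Γ : Str Empty (fun _ => 0) B := fun e => e.elim
    set 𝔸 := expand Γ (τ := Fin 1) (k := fun _ => k) (fun _ => R.1.1) with h𝔸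
    have hpp : ∀ q, q ≤ p → ∀ S : Set (Fin q → B), Invar (autGroup 𝔹) S → (∀ v ∈ S, Function.Injective v) →
        PPDef 𝔸 S := by
      intro q hq S hS hSi
      have hfq := hfin q
      have hqa : Nat.card (Orb (autGroup 𝔹) (Fin q)) ≤ a :=
        Finset.le_sup (f := fun q => Nat.card (Orb (autGroup 𝔹) (Fin q))) (Finset.mem_range.2 (by omega))
      exact (pp_all_inj hord Γ (by omega) (by simpa using hq.trans hkp) hka hqa hRG R.2 hR hS hSi).toPPDef
    have h1 : autGroup 𝔸 ≤ autGroup 𝔹 := le_aut (fun i => fo_invar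
      (fo_all_of_inj hfin hloc hpp (S := 𝔹 i) (fun g hg v hv => (hg i v).1 hv)))
    have h2 : K ≤ autGroup 𝔸 := le_aut (by
      rintro (e | j)
      · exact e.elim
      · exact R.1.2)
    exact absurd (h2.trans h1) (not_le_of_gt hK)
  have hcardG : Nat.card (InjRel (autGroup 𝔹) k) = 2 ^ Nat.card (InjOrb (autGroup 𝔹) k) := by
    have := Fintype.ofFinite (InjOrb (autGroup 𝔹) k)
    rw [Nat.card_congr (injEquiv (autGroup 𝔹) k), Nat.card_eq_fintype_card, Fintype.card_set,
      Nat.card_eq_fintype_card]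
  have hcardK : Nat.card (InjRel K k) = 2 ^ Nat.card (InjOrb K k) := by
    have := Fintype.ofFinite (InjOrb K k)
    rw [Nat.card_congr (injEquiv K k), Nat.card_eq_fintype_card, Fintype.card_set, Nat.card_eq_fintype_card]
  have h1 : Nat.card (InjRel K k) ≤ Nat.card {R : InjRel (autGroup 𝔹) k // ¬ Sep (autGroup 𝔹) a R.1.1} := by
    apply Nat.card_le_card_of_injective
      (fun R => ⟨⟨⟨R.1.1, fun g hg v hv => R.1.2 g (hK.le hg) v hv⟩, R.2⟩, hnot R⟩)
    intro R R' h
    exact Subtype.ext (Subtype.ext (congrArg (fun x => x.1.1.1) h))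
  have hN : (Nat.card (Orb (autGroup 𝔹) (Fin k)) : ℝ) ≤ Real.exp (K₁ * (k : ℝ) ^ r) := by
    have := hK₁ k (by omega)
    linarith
  have h2 : ((Nat.card (InjRel K k) : ℕ) : ℝ) ≤
      Real.exp (-((2⁻¹ : ℝ) ^ (a + 1) / (a + 1) ^ 2 * k.factorial - K₁ * (a + 1) * (k : ℝ) ^ r)) *
        Nat.card (InjRel (autGroup 𝔹) k) := by
    calc ((Nat.card (InjRel K k) : ℕ) : ℝ)
        ≤ Nat.card {R : InjRel (autGroup 𝔹) k // ¬ Sep (autGroup 𝔹) a R.1.1} := by exact_mod_cast h1
      _ ≤ (Nat.card (Orb (autGroup 𝔹) (Fin k)) : ℝ) ^ (a + 1) *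
        Real.exp (-((2⁻¹ : ℝ) ^ (a + 1) * (k.factorial / (a + 1) ^ 2))) * Nat.card (InjRel (autGroup 𝔹) k) :=
          sep_count hord a k
      _ ≤ Real.exp (K₁ * (k : ℝ) ^ r) ^ (a + 1) *
        Real.exp (-((2⁻¹ : ℝ) ^ (a + 1) * (k.factorial / (a + 1) ^ 2))) * Nat.card (InjRel (autGroup 𝔹) k) := by
          apply mul_le_mul_of_nonneg_right _ (Nat.cast_nonneg _)
          apply mul_le_mul_of_nonneg_right _ (Real.exp_pos _).le
          exact pow_le_pow_left₀ (Nat.cast_nonneg _) hN _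
      _ = _ := by
          rw [← Real.exp_nat_mul, ← Real.exp_add]
          congr 2
          push_cast
          ring
  rw [hcardG, hcardK] at h2
  push_cast at h2
  have h3 := log_bound h2
  linarith [h3, mul_sub (Real.log 2)⁻¹ ((2⁻¹ : ℝ) ^ (a + 1) / (a + 1) ^ 2 * k.factorial) (K₁ * (a + 1) * (k : ℝ) ^ r)]

end Pool.Agent.Results.MP_f225a9_lc.FactorialOrbitGap
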