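import Pool.Agent.X99.SY.L
import Pool.Agent.X99.SY.B

/-!
# A uniform gap for the number of orbits of the proper reducts of a homogeneous structure

Let `𝔹` be a homogeneous structure in a finite relational signature and `G = Aut(𝔹)`. Every proper reduct of `𝔹` has an
automorphism group `K` which contains `G` properly. There are constants which depend on `𝔹` only such that all these `K` have at
least `δ exp(c k) - C` fewer orbits on `k`-tuples than `G`; and for every group `H` of permutations of the `k` coordinates they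
have at least `δ k - C` fewer orbits on `k`-tuples modulo `H` (e.g. on multisets of size `k`, if `H` is the full symmetric group).

Definitions. From `Pool.Agent.W994.AR`: `Str σ ar B`: a structure on `B`, one relation `Set (Fin (ar i) → B)` for each symbol
`i : σ`; `autGroup 𝔹`: its automorphism group; `Homogeneous`: as in the problem; `Orb G (Fin k)`: the type of the orbits of `G` on
`k`-tuples. From `Pool.Agent.X99.SY.A`: `Orb2 G H`: the type of the classes of `k`-tuples modulo `G` and the permutations of the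
coordinates in `H`.
-/

set_option autoImplicit false

namespace Pool.Agent.Results.MP_f225a9_lc.OrbitGap

open Pool.Agent.W994.AR Pool.Agent.X99.SY

theorem invar_mono {B : Type} {G K : Subgroup (Equiv.Perm B)} (h : G ≤ K) {V : Type} {S : Set (V → B)}
    (hS : Invar K S) : Invar G S := fun g hg v hv => hS g (h hg) v hv

theorem not_rich {B σ : Type} [Nontrivial B] {arB : σ → ℕ} (𝔹 : Str σ arB B) {p : ℕ} (har : ∀ i, arB i ≤ p)
    {K : Subgroup (Equiv.Perm B)} (hK : autGroup 𝔹 < K) {k : ℕ} {R : Set (Fin k → B)} (hR : Invar K R) :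
    ¬ Rich (autGroup 𝔹) (Fin (p + 1)) R := by
  intro hrich
  let 𝔸 : Str (Fin 1) (fun _ => k) B := fun _ => R
  have h1 : autGroup 𝔸 ≤ autGroup 𝔹 := aut_le (M := p + 1) (fun l => by have := har l; omega) (0 : Fin 1) hrich
  have h2 : K ≤ autGroup 𝔸 := le_aut (fun _ => hR)
  exact absurd (h2.trans h1) (not_le_of_gt hK)

theorem log_bound {x y : ℕ} {C e : ℝ} (hC : 0 < C) (h : (2 : ℝ) ^ x ≤ C * Real.exp (-e) * 2 ^ y) :
    (x : ℝ) + (Real.log 2)⁻¹ * e ≤ y + (Real.log 2)⁻¹ * Real.log C := by
  have hl : 0 < Real.log 2 := Real.log_pos (by norm_num)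
  have h1 := Real.log_le_log (by positivity) h
  rw [Real.log_mul (by positivity) (by positivity), Real.log_mul (by positivity) (by positivity), Real.log_exp,
    Real.log_pow, Real.log_pow] at h1
  have h2 : (Real.log 2)⁻¹ * (x * Real.log 2) ≤ (Real.log 2)⁻¹ * (Real.log C + -e + y * Real.log 2) :=
    mul_le_mul_of_nonneg_left h1 (inv_nonneg.2 hl.le)
  have h3 : (Real.log 2)⁻¹ * (x * Real.log 2) = x := by field_simp
  have h4 : (Real.log 2)⁻¹ * (Real.log C + -e + y * Real.log 2) =
      (Real.log 2)⁻¹ * Real.log C - (Real.log 2)⁻¹ * e + y := by field_simp; ring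
  rw [h3, h4] at h2
  linarith

theorem result {B σ : Type} [Nontrivial B] [Finite σ] {arB : σ → ℕ} (𝔹 : Str σ arB B) (h𝔹 : Homogeneous 𝔹) :
    -- there are finitely many orbits
    (∀ k : ℕ, Finite (Orb (autGroup 𝔹) (Fin k)) ∧
      ∀ H : Subgroup (Equiv.Perm (Fin k)), Finite (Orb2 (autGroup 𝔹) H)) ∧
    -- an exponential gap for the orbits on `k`-tuples
    (∃ C c δ : ℝ, 0 < c ∧ 0 < δ ∧ ∀ K : Subgroup (Equiv.Perm B), autGroup 𝔹 < K → ∀ k : ℕ,
      (Nat.card (Orb K (Fin k)) : ℝ) + δ * Real.exp (c * k) ≤ Nat.card (Orb (autGroup 𝔹) (Fin k)) + C) ∧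
    -- a linear gap for the orbits on `k`-tuples modulo any group of permutations of the coordinates
    ∃ C δ : ℝ, 0 < δ ∧ ∀ K : Subgroup (Equiv.Perm B), autGroup 𝔹 < K → ∀ (k : ℕ) (H : Subgroup (Equiv.Perm (Fin k))),
      (Nat.card (Orb2 K H) : ℝ) + δ * k ≤ Nat.card (Orb2 (autGroup 𝔹) H) + C := by
  classical
  have := Fintype.ofFinite σ
  have hfin : ∀ k, Finite (Orb (autGroup 𝔹) (Fin k)) := fun k => hom_finite h𝔹 (Fin k)
  have hfin2 : ∀ (k : ℕ) (H : Subgroup (Equiv.Perm (Fin k))), Finite (Orb2 (autGroup 𝔹) H) := fun k H => by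
    have := hfin k
    exact finite_orb2 _ H
  have hfinK : ∀ (K : Subgroup (Equiv.Perm B)), autGroup 𝔹 < K → ∀ k, Finite (Orb K (Fin k)) := by
    intro K hK k
    have := hfin k
    let f : Orb (autGroup 𝔹) (Fin k) → Orb K (Fin k) := Quotient.map' (s₁ := orb (autGroup 𝔹) (Fin k))
      (s₂ := orb K (Fin k)) (fun v => v) (fun u v h => by
        obtain ⟨g, hg, h⟩ := h
        exact ⟨g, hK.le hg, h⟩)
    apply Finite.of_surjective f
    intro o
    obtain ⟨v, rfl⟩ := Quotient.exists_rep o
    exact ⟨Quotient.mk (orb (autGroup 𝔹) (Fin k)) v, rfl⟩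
  set p := max 2 (Finset.univ.sup arB) with hp
  have har : ∀ i, arB i ≤ p := fun i =>
    (Finset.le_sup (f := arB) (Finset.mem_univ i)).trans (le_max_right _ _)
  have hl : 0 < Real.log 2 := Real.log_pos (by norm_num)
  refine ⟨fun k => ⟨hfin k, hfin2 k⟩, ?_, ?_⟩
  · obtain ⟨C, c, δ, hC, hc, hδ, h⟩ := rich_bound (autGroup 𝔹) (p + 1) (by omega) hfin
    refine ⟨(Real.log 2)⁻¹ * Real.log C, c, (Real.log 2)⁻¹ * δ, hc, by positivity, fun K hK k => ?_⟩
    have hk1 := hfin k
    have hk2 := hfinK K hK k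
    have hcardG : Nat.card (InvRel (autGroup 𝔹) (Fin k)) = 2 ^ Nat.card (Orb (autGroup 𝔹) (Fin k)) := by
      have := Fintype.ofFinite (Orb (autGroup 𝔹) (Fin k))
      rw [Nat.card_congr (invEquiv (autGroup 𝔹) (Fin k)), Nat.card_eq_fintype_card, Fintype.card_set,
        Nat.card_eq_fintype_card]
    have hcardK : Nat.card (InvRel K (Fin k)) = 2 ^ Nat.card (Orb K (Fin k)) := by
      have := Fintype.ofFinite (Orb K (Fin k))
      rw [Nat.card_congr (invEquiv K (Fin k)), Nat.card_eq_fintype_card, Fintype.card_set,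
        Nat.card_eq_fintype_card]
    have hfI : Finite (InvRel (autGroup 𝔹) (Fin k)) := finite_inv _ _
    have h1 : Nat.card (InvRel K (Fin k)) ≤
        Nat.card {R : InvRel (autGroup 𝔹) (Fin k) // ¬ Rich (autGroup 𝔹) (Fin (p + 1)) R.1} := by
      apply Nat.card_le_card_of_injective (fun R => ⟨⟨R.1, invar_mono hK.le R.2⟩, not_rich 𝔹 har hK R.2⟩)
      intro R R' h
      exact Subtype.ext (congrArg (fun x => x.1.1) h)
    have h2 : ((Nat.card (InvRel K (Fin k)) : ℕ) : ℝ) ≤ C * Real.exp (-(δ * Real.exp (c * k))) *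
        Nat.card (InvRel (autGroup 𝔹) (Fin k)) := le_trans (by exact_mod_cast h1) (h k)
    rw [hcardG, hcardK] at h2
    push_cast at h2
    have h3 := log_bound hC h2
    rw [mul_assoc]
    exact h3
  · obtain ⟨C, δ, hC, hδ, h⟩ := sym_bound (autGroup 𝔹) (p + 1) (by omega) hfin
    refine ⟨(Real.log 2)⁻¹ * Real.log C, (Real.log 2)⁻¹ * δ, by positivity, fun K hK k H => ?_⟩
    have hk1 := hfin k
    have hk2 := hfinK K hK k
    have hk3 := finite_orb2 (autGroup 𝔹) H
    have hk4 := finite_orb2 K H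
    have hcardG : Nat.card (SymRel (autGroup 𝔹) H) = 2 ^ Nat.card (Orb2 (autGroup 𝔹) H) := by
      have := Fintype.ofFinite (Orb2 (autGroup 𝔹) H)
      rw [Nat.card_congr (symEquiv (autGroup 𝔹) H), Nat.card_eq_fintype_card, Fintype.card_set,
        Nat.card_eq_fintype_card]
    have hcardK : Nat.card (SymRel K H) = 2 ^ Nat.card (Orb2 K H) := by
      have := Fintype.ofFinite (Orb2 K H)
      rw [Nat.card_congr (symEquiv K H), Nat.card_eq_fintype_card, Fintype.card_set,
        Nat.card_eq_fintype_card]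
    have hfI : Finite (SymRel (autGroup 𝔹) H) := finite_sym _ H
    have h1 : Nat.card (SymRel K H) ≤
        Nat.card {R : SymRel (autGroup 𝔹) H // ¬ Rich (autGroup 𝔹) (Fin (p + 1)) R.1.1} := by
      apply Nat.card_le_card_of_injective
        (fun R => ⟨⟨⟨R.1.1, invar_mono hK.le R.1.2⟩, R.2⟩, not_rich 𝔹 har hK R.1.2⟩)
      intro R R' h
      exact Subtype.ext (Subtype.ext (congrArg (fun x => x.1.1.1) h))
    have h2 : ((Nat.card (SymRel K H) : ℕ) : ℝ) ≤ C * Real.exp (-(δ * k)) *
        Nat.card (SymRel (autGroup 𝔹) H) := le_trans (by exact_mod_cast h1) (h k H)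
    rw [hcardG, hcardK] at h2
    push_cast at h2
    have h3 := log_bound hC h2
    rw [mul_assoc]
    exact h3

end Pool.Agent.Results.MP_f225a9_lc.OrbitGap
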