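import Pool.Agent.X99.SY.L
import Pool.Agent.X99.SY.B

/-!
# Almost all definable relations with prescribed symmetries have no proper reduct around them

Let `𝔹` be a homogeneous structure in a finite relational signature. The known proper reducts of homogeneous structures (such as
the reducts of the random graph) are given by relations with many symmetries of the coordinates, e.g. by uniform hypergraphs. We
show that such relations are exceptional: for every group `H` of permutations of the `k` coordinates (e.g. the full symmetric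
group), all but a proportion `C exp(-δ k)` of the `H`-symmetric relations `R` of arity `k` which are first-order definable in `𝔹`
are such that all the reducts `(B; Γ, R)` of `𝔹` are first-order interdefinable with `𝔹`. The constants do not depend on `H`.

Definitions. From `Pool.Agent.W994.AR`: `Str σ ar B`: a structure on `B`, one relation `Set (Fin (ar i) → B)` for each symbol
`i : σ`; `autGroup 𝔹`: its automorphism group; `Homogeneous`: as in the problem; `Invar G S`: `S` is invariant under `G`;
`InvRel G (Fin k)`: the type of all `G`-invariant relations of arity `k`; `expand Γ R`: the structure with the relations of `Γ`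
and the relations `R j`. From `Pool.Agent.X99.SY.A`: `SymRel G H`: the type of the relations `R : InvRel G (Fin k)` which are
invariant under the permutations of the coordinates in `H`. From `Pool.Agent.X99.SY.K`: `lang ar`, `struc 𝔸`: the relational
language and the structure `𝔸` in the sense of Mathlib; `FODef 𝔸 S`: `S` is first-order definable without parameters in `𝔸`
(Mathlib's `Set.Definable` over the empty set).
-/

set_option autoImplicit false

namespace Pool.Agent.Results.MP_f225a9_lc.SymmetricReducts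

open Pool.Agent.W994.AR Pool.Agent.X99.SY

/-- All the reducts of `𝔹` which have `R` as a relation have the automorphisms of `𝔹` only and are first-order interdefinable
with `𝔹`. -/
def OnlyTrivial {B σ : Type} {arB : σ → ℕ} (𝔹 : Str σ arB B) {k : ℕ} (R : Set (Fin k → B)) : Prop :=
  ∀ (ι : Type) (arΓ : ι → ℕ) (Γ : Str ι arΓ B), (∀ l, FODef 𝔹 (Γ l)) →
    autGroup (expand Γ (τ := Fin 1) (k := fun _ => k) (fun _ => R)) = autGroup 𝔹 ∧
    ∀ (n : ℕ) (S : Set (Fin n → B)),
      FODef (expand Γ (τ := Fin 1) (k := fun _ => k) (fun _ => R)) S ↔ FODef 𝔹 S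

theorem trivial_of_rich {B σ : Type} [Nontrivial B] [Finite σ] {arB : σ → ℕ} (𝔹 : Str σ arB B) (h𝔹 : Homogeneous 𝔹)
    {p : ℕ} (hp : 2 ≤ p) (har : ∀ i, arB i ≤ p) {k : ℕ} {R : Set (Fin k → B)} (hR : Invar (autGroup 𝔹) R)
    (hrich : Rich (autGroup 𝔹) (Fin (p + 1)) R) : OnlyTrivial 𝔹 R := by
  classical
  intro ι arΓ Γ hΓ
  have hfin : ∀ k, Finite (Orb (autGroup 𝔹) (Fin k)) := fun k => hom_finite h𝔹 (Fin k)
  have hloc := hom_local h𝔹 p hp har
  set 𝔸 := expand Γ (τ := Fin 1) (k := fun _ => k) (fun _ => R) with h𝔸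
  have hinv : ∀ i, Invar (autGroup 𝔹) (𝔸 i) := by
    rintro (l | j)
    · exact fo_invar (hΓ l)
    · exact hR
  have haut : autGroup 𝔸 = autGroup 𝔹 :=
    le_antisymm (aut_le (M := p + 1) (fun l => by have := har l; omega) (Sum.inr 0) hrich) (le_aut hinv)
  have hall : ∀ (n : ℕ) (S : Set (Fin n → B)), Invar (autGroup 𝔹) S → FODef 𝔸 S := fun n S hS =>
    fo_all hfin (p := p) (by omega) hloc (M := p + 1) (by omega) (Sum.inr 0) hR hrich hS
  refine ⟨haut, fun n S => ⟨fun h => ?_, fun h => hall n S (fo_invar h)⟩⟩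
  have h1 := fo_invar h
  rw [haut] at h1
  exact fo_hom h𝔹 h1

theorem result {B σ : Type} [Nontrivial B] [Finite σ] {arB : σ → ℕ} (𝔹 : Str σ arB B) (h𝔹 : Homogeneous 𝔹) :
    -- the first-order definable relations are the invariant relations, there are finitely many of each arity and symmetry type
    (∀ (k : ℕ) (S : Set (Fin k → B)), FODef 𝔹 S ↔ Invar (autGroup 𝔹) S) ∧
    (∀ (k : ℕ) (H : Subgroup (Equiv.Perm (Fin k))), Finite (SymRel (autGroup 𝔹) H)) ∧
    -- all but an exponentially small proportion of them are in no proper reduct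
    ∃ C δ : ℝ, 0 < C ∧ 0 < δ ∧ ∀ (k : ℕ) (H : Subgroup (Equiv.Perm (Fin k))),
      (Nat.card {R : SymRel (autGroup 𝔹) H // ¬ OnlyTrivial 𝔹 R.1.1} : ℝ) ≤
        C * Real.exp (-(δ * k)) * Nat.card (SymRel (autGroup 𝔹) H) := by
  classical
  have := Fintype.ofFinite σ
  have hfin : ∀ k, Finite (Orb (autGroup 𝔹) (Fin k)) := fun k => hom_finite h𝔹 (Fin k)
  have hfinS : ∀ (k : ℕ) (H : Subgroup (Equiv.Perm (Fin k))), Finite (SymRel (autGroup 𝔹) H) := fun k H => by
    have := hfin k
    exact finite_sym _ H
  set p := max 2 (Finset.univ.sup arB) with hp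
  have hp2 : 2 ≤ p := le_max_left _ _
  have har : ∀ i, arB i ≤ p := fun i =>
    (Finset.le_sup (f := arB) (Finset.mem_univ i)).trans (le_max_right _ _)
  refine ⟨fun k S => ⟨fun h => fo_invar h, fun h => fo_hom h𝔹 h⟩, hfinS, ?_⟩
  obtain ⟨C, δ, hC, hδ, h⟩ := sym_bound (autGroup 𝔹) (p + 1) (by omega) hfin
  refine ⟨C, δ, hC, hδ, fun k H => le_trans ?_ (h k H)⟩
  have := hfinS k H
  have h2 : Nat.card {R : SymRel (autGroup 𝔹) H // ¬ OnlyTrivial 𝔹 R.1.1} ≤
      Nat.card {R : SymRel (autGroup 𝔹) H // ¬ Rich (autGroup 𝔹) (Fin (p + 1)) R.1.1} := by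
    apply Nat.card_le_card_of_injective (fun R => ⟨R.1, fun h => R.2 (trivial_of_rich 𝔹 h𝔹 hp2 har R.1.1.2 h)⟩)
    intro R R' h
    exact Subtype.ext (congrArg (fun x => x.1) h)
  exact_mod_cast h2

end Pool.Agent.Results.MP_f225a9_lc.SymmetricReducts
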